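import Pool.Agent.N838.CR.Stm

set_option autoImplicit false

namespace N773.CR

open Real N838.CR

lemma F_eq {E : Type} [NormedAddCommGroup E] [InnerProductSpace ℂ E] (T : E →L[ℂ] E)
    (a b : ℝ) (v : E) (hs : Real.sin ((b - a) / 2) ≠ 0) :
    F T a b v = Real.cos ((b - a) / 2) / Real.sin ((b - a) / 2) *
      (‖v‖ ^ 2 - (Complex.exp (((-b : ℝ) : ℂ) * Complex.I) * inner ℂ v (T v)).re) +
      (Complex.exp (((-b : ℝ) : ℂ) * Complex.I) * inner ℂ v (T v)).im := by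
  unfold F
  have h1 : Complex.exp (-(((a + b) / 2 : ℝ) : ℂ) * Complex.I) =
      Complex.exp (((((b - a) / 2 : ℝ)) : ℂ) * Complex.I) *
        Complex.exp (((-b : ℝ) : ℂ) * Complex.I) := by
    rw [← Complex.exp_add]
    congr 1
    push_cast
    ring
  rw [h1, mul_assoc]
  set w : ℂ := Complex.exp (((-b : ℝ) : ℂ) * Complex.I) * inner ℂ v (T v) with hw
  rw [Complex.mul_re, Complex.exp_ofReal_mul_I_re, Complex.exp_ofReal_mul_I_im]
  field_simp
  ring

theorem t_MONO : MONO := by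
  intro E _ _ T hT a a' b h1 h2 h3 v hv
  have hd' : 0 < (b - a') / 2 := by linarith
  have hd : 0 < (b - a) / 2 := by linarith
  have hdpi : (b - a) / 2 < π := by linarith
  have hd'pi : (b - a') / 2 < π := by linarith
  have s1 : 0 < Real.sin ((b - a) / 2) := Real.sin_pos_of_pos_of_lt_pi hd hdpi
  have s2 : 0 < Real.sin ((b - a') / 2) := Real.sin_pos_of_pos_of_lt_pi hd' hd'pi
  have s3 : 0 < Real.sin ((b - a) / 2 - (b - a') / 2) :=
    Real.sin_pos_of_pos_of_lt_pi (by linarith) (by linarith)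
  rw [F_eq T a b v s1.ne', F_eq T a' b v s2.ne']
  set w : ℂ := Complex.exp (((-b : ℝ) : ℂ) * Complex.I) * inner ℂ v (T v) with hw
  have hnv : 0 < ‖v‖ := norm_pos_iff.mpr hv
  have hw1 : w.re ≤ ‖T‖ * ‖v‖ ^ 2 := by
    calc w.re ≤ ‖w‖ := Complex.re_le_norm w
      _ = ‖(inner ℂ v (T v) : ℂ)‖ := by
          rw [hw, norm_mul, Complex.norm_exp_ofReal_mul_I, one_mul]
      _ ≤ ‖v‖ * ‖T v‖ := norm_inner_le_norm _ _
      _ ≤ ‖v‖ * (‖T‖ * ‖v‖) := by
          apply mul_le_mul_of_nonneg_left (T.le_opNorm v) (norm_nonneg v)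
      _ = ‖T‖ * ‖v‖ ^ 2 := by ring
  have hpos : 0 < ‖v‖ ^ 2 - w.re := by
    have : ‖T‖ * ‖v‖ ^ 2 < 1 * ‖v‖ ^ 2 := mul_lt_mul_of_pos_right hT (by positivity)
    linarith
  have hcot : Real.cos ((b - a) / 2) / Real.sin ((b - a) / 2) <
      Real.cos ((b - a') / 2) / Real.sin ((b - a') / 2) := by
    rw [div_lt_div_iff₀ s1 s2]
    rw [Real.sin_sub] at s3
    nlinarith [s3]
  have := mul_lt_mul_of_pos_right hcot hpos
  linarith

end N773.CR
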